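import Pool.Agent.Y874.TP2.Defs

/-!
# Movies of singular discs bounded by virtual links

The movies of `Y874/TP4` with two generalisations: the diagrams between the first and the last one
need not be planar, i.e. they are diagrams of virtual links (Gauss codes of diagrams on arbitrary
closed oriented surfaces), and crossings with colours in the set `Z` may be changed, i.e. the
surfaces may cross themselves or one another in the points of the double curves with these colours.
-/

namespace Pool.Agent.Q127.SR

open Pool.Agent.Y468.SR
open Pool.Agent.Y874.TP (colour TriAt)
open Pool.Agent.Y874.TP2 (CStep prs)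

/-- the same diagram with the crossing named `c` changed -/
def changed (c : ℕ) (D : Code) : Code :=
  D.map fun C => (C.1.map fun p => if p.crossing = c then ⟨c, !p.isOver, !p.isPos⟩ else p, C.2)

/-- `VMovie handles Z D T`: the virtual link `D` bounds singular connected surfaces, one for each
label, by a movie of virtual links ending with the empty diagram, in which births are allowed and
also changes of crossings with colours in `Z`. For each triple point of the projection (move of type
III), either at least two of the three double curves through this point have colours in `Z`, or the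
three double curves have colours outside `Z`. In the surfaces, no curve of double points with colour
outside `Z` crosses itself at triple points of the second kind, and any two of these curves cross at
most once at such points; `T` is the list of the pairs of these curves crossing one another. If
`handles = false`, the surfaces are planar. If `handles = true`, a component may be cut into two
components of the boundary of the same piece of surface, one of which passes only through crossings
with colours in `Z`. -/
inductive VMovie (handles : Bool) (Z : ℕ → Prop) : Code → List (Sym2 (ℕ × Bool)) → Prop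
  | nil : VMovie handles Z [] []
  | step {D D' : Code} {T : List (Sym2 (ℕ × Bool))} (h : WellFormed D) (hs : CStep D D')
      (hm : VMovie handles Z D' T) : VMovie handles Z D T
  | change {D : Code} {T : List (Sym2 (ℕ × Bool))} (c : ℕ) (h : WellFormed D) (hc : Z (colour c))
      (hm : VMovie handles Z (changed c D) T) : VMovie handles Z D T
  | three {D D' : Code} {T : List (Sym2 (ℕ × Bool))} (h : WellFormed D) (A B C E : List (Pass ⊕ ℕ))
      (X Y W t m b : Pass × Pass) (x y z : ℕ) (hT : TriAt x y z t m b)
      (hP : List.Perm [X, Y, W] [t, m, b])
      (hD : enc D = A ++ two X.1 X.2 ++ B ++ two Y.1 Y.2 ++ C ++ two W.1 W.2 ++ E)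
      (hD' : enc D' = A ++ two X.2 X.1 ++ B ++ two Y.2 Y.1 ++ C ++ two W.2 W.1 ++ E)
      (hZ : ¬Z (colour x) ∧ ¬Z (colour y) ∧ ¬Z (colour z))
      (hd : ∀ e ∈ prs x y z, ¬e.IsDiag) (hn : (prs x y z ++ T).Nodup)
      (hm : VMovie handles Z D' T) : VMovie handles Z D (prs x y z ++ T)
  | inner {D D' : Code} {T : List (Sym2 (ℕ × Bool))} (h : WellFormed D) (A B C E : List (Pass ⊕ ℕ))
      (X Y W t m b : Pass × Pass) (x y z : ℕ) (hT : TriAt x y z t m b)
      (hP : List.Perm [X, Y, W] [t, m, b])
      (hD : enc D = A ++ two X.1 X.2 ++ B ++ two Y.1 Y.2 ++ C ++ two W.1 W.2 ++ E)
      (hD' : enc D' = A ++ two X.2 X.1 ++ B ++ two Y.2 Y.1 ++ C ++ two W.2 W.1 ++ E)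
      (hZ : Z (colour x) ∧ Z (colour y) ∨ Z (colour x) ∧ Z (colour z) ∨ Z (colour y) ∧ Z (colour z))
      (hm : VMovie handles Z D' T) : VMovie handles Z D T
  | handle {R : Code} {T : List (Sym2 (ℕ × Bool))} (x y : List Pass) (b : ℕ) (hh : handles = true)
      (h : WellFormed ((x ++ y, b) :: R)) (hy : ∀ p ∈ y, Z (colour p.crossing))
      (hm : VMovie handles Z ((x, b) :: (y, b) :: R) T) : VMovie handles Z ((x ++ y, b) :: R) T

/-- The steps of a movie with births of a singular surface, keeping the colours (names of the double
curves), in which a move of type III (triple point) is allowed only if at least two of the three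
colours of its crossings are in `Z`, and a change of a crossing only if its colour is in `Z`. -/
inductive VStep (Z : ℕ → Prop) : Code → Code → Prop
  | step {D D' : Code} (hs : CStep D D') : VStep Z D D'
  | change {D : Code} (c : ℕ) (hc : Z (colour c)) : VStep Z D (changed c D)
  | three {D D' : Code} (A B C E : List (Pass ⊕ ℕ)) (X Y W t m b : Pass × Pass) (x y z : ℕ)
      (hT : TriAt x y z t m b) (hP : List.Perm [X, Y, W] [t, m, b])
      (hD : enc D = A ++ two X.1 X.2 ++ B ++ two Y.1 Y.2 ++ C ++ two W.1 W.2 ++ E)
      (hD' : enc D' = A ++ two X.2 X.1 ++ B ++ two Y.2 Y.1 ++ C ++ two W.2 W.1 ++ E)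
      (hZ : Z (colour x) ∧ Z (colour y) ∨ Z (colour x) ∧ Z (colour z) ∨
        Z (colour y) ∧ Z (colour z)) : VStep Z D D'

/-- a movie of virtual links with such steps -/
def VSMovie (Z : ℕ → Prop) : Code → Code → Prop :=
  Relation.ReflTransGen fun D D' => WellFormed D ∧ WellFormed D' ∧ VStep Z D D'

/-- The classical knots with Gauss codes `k` and `k'` are joined by a singular concordance, given by
a movie of virtual links, such that, for some set of double curves of its projection containing all
double curves meeting `k` or `k'` (those with colours not in `Z`), the concordance crosses itself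
only in points of double curves not in this set, and at most one of the three double curves
(branches) through each triple point belongs to this set. The crossings of `k` and `k'` are renamed
(by `f` and `g`) in order to get names telling the double curve. -/
def VConc (k k' : List Pass) : Prop :=
  Classical [(k, 0)] ∧ Classical [(k', 0)] ∧ ∃ (f g : ℕ → ℕ) (Z : ℕ → Prop),
    Function.Injective f ∧ Function.Injective g ∧ (∀ p ∈ k, ¬Z (colour (f p.crossing))) ∧
    (∀ p ∈ k', ¬Z (colour (g p.crossing))) ∧ VSMovie Z (renamed f [(k, 0)]) (renamed g [(k', 0)])

end Pool.Agent.Q127.SR
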