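import Pool.Agent.Q127.SR.Defs
import Pool.Agent.Y874.TP4.Final
import Pool.Agent.Y874.TP4.Conc

/-!
# Singular discs of virtual links and ribbon discs

The proofs follow those of `Y874/TP4/Lift.lean` and `Y874/TP4/Conc.lean`.
-/

namespace Pool.Agent.Y874.TP2.V127

open Pool.Agent.Q127.SR
open Pool.Agent.Y468.SR
open Pool.Agent.Y874.TP
open Pool.Agent.Y874.TP2.T3
open Pool.Agent.Y874.TP2.T4

variable {Z : ℕ → Prop}

theorem del_changed {c : ℕ} (hc : Z (colour c)) (D : Code) : del Z (changed c D) = del Z D := by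
  have key : ∀ w : List Pass,
      dw Z (w.map fun p => if p.crossing = c then (⟨c, !p.isOver, !p.isPos⟩ : Pass) else p) =
        dw Z w := by
    intro w
    induction w with
    | nil => rfl
    | cons p w ih =>
      rw [List.map_cons]
      by_cases hp : p.crossing = c
      · rw [if_pos hp, dw_cons_pos (by simpa using hc), dw_cons_pos (by rw [hp]; exact hc), ih]
      · rw [if_neg hp]
        by_cases hz : Z (colour p.crossing)
        · rw [dw_cons_pos hz, dw_cons_pos hz, ih]
        · rw [dw_cons_neg hz, dw_cons_neg hz, ih]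
  unfold del changed
  rw [List.map_map]
  refine List.map_congr_left fun C _ => ?_
  simp only [Function.comp, key]

theorem vwf {hd : Bool} {D : Code} {T : List (Sym2 (ℕ × Bool))}
    (h : VMovie hd Z D T) : WellFormed D := by
  cases h with
  | nil => exact (classical_empty rfl).1
  | step h _ _ => exact h
  | change _ h => exact h
  | three h => exact h
  | inner h => exact h
  | handle _ _ _ _ h => exact h

theorem vmovie_inv (hreid : S_REID) (hren : S_REN) (hthree : S_THREE) {hd : Bool} {D : Code}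
    {T : List (Sym2 (ℕ × Bool))} (h : VMovie hd Z D T) :
    ∃ Ts, InvB (del Z D) Ts ∧ Ts.flatMap tprs = T ∧ (∀ e ∈ T, ¬e.IsDiag) ∧ T.Nodup := by
  induction h with
  | nil =>
    refine ⟨[], ⟨?_, by simp, ?_⟩, rfl, by simp, by simp⟩
    · exact ⟨by simp [TC, del], by simp [TC, del]⟩
    · refine ⟨id, fun p hp => absurd hp (by simp [TC, del]),
        fun p hp => absurd hp (by simp [TC, del]), fun G _ o u _ b => ?_⟩
      exact PC.nil
  | @step D D' T hD hs hm ih =>
    obtain ⟨Ts, h1, h2, h5, h6⟩ := ih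
    rcases cstep_del (Z := Z) hs with h | h
    · obtain ⟨Ts', k1, k2⟩ := cstep_liftB hreid hren (wf_del hD)
        (wf_del (vwf hm)) h h1
      exact ⟨Ts', k1, (sig_flatMap k2).trans h2, h5, h6⟩
    · exact ⟨Ts, by rw [h]; exact h1, h2, h5, h6⟩
  | @change D T c hD hc hm ih =>
    rwa [del_changed hc] at ih
  | @three D D' T hD A B C E X Y W t m b x y z hT hP hE hE' hZ hdg hn hm ih =>
    obtain ⟨Ts, h1, h2, h5, h6⟩ := ih
    obtain ⟨c1, c2, c3⟩ := triAt_crossing hT
    have key : ∀ {u v : ℕ} {q : Pass × Pass}, ¬Z (colour u) → ¬Z (colour v) →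
        (q.1.crossing = u ∧ q.2.crossing = v ∨ q.1.crossing = v ∧ q.2.crossing = u) →
        ¬Z (colour q.1.crossing) ∧ ¬Z (colour q.2.crossing) := by
      intro u v q hu hv hq
      rcases hq with ⟨e1, e2⟩ | ⟨e1, e2⟩ <;> rw [e1, e2] <;> exact ⟨by assumption, by assumption⟩
    obtain ⟨⟨x1, x2⟩, ⟨y1, y2⟩, w1, w2⟩ := mem_three hP (P := fun q : Pass × Pass =>
      ¬Z (colour q.1.crossing) ∧ ¬Z (colour q.2.crossing)) (key hZ.1 hZ.2.1 c1)
      (key hZ.1 hZ.2.2 c2) (key hZ.2.1 hZ.2.2 c3)
    obtain ⟨T', k1, k2⟩ := three_lift (D := del Z D) (D' := del Z D') (A := de Z A) (B := de Z B)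
      (C := de Z C) (E := de Z E) hthree hT hP
      (by rw [enc_del, hE]; simp only [de_append, de_two_keep x1 x2, de_two_keep y1 y2,
        de_two_keep w1 w2])
      (by rw [enc_del, hE']; simp only [de_append, de_two_keep x2 x1, de_two_keep y2 y1,
        de_two_keep w2 w1]) h1
    have hprs : tprs T' = prs x y z := by
      simp only [sig, Prod.mk.injEq] at k2
      obtain ⟨⟨e1, e2, e3⟩, e4, e5, e6⟩ := k2
      simp only [tprs, prs, kap, lc, Tri.pa₁, Tri.pb₁, Tri.pc₁, Pass.mate, e1, e2, e3, e4, e5, e6,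
        Bool.not_true]
    refine ⟨T' :: Ts, k1, by rw [List.flatMap_cons, hprs, h2], fun e he => ?_, hn⟩
    rcases List.mem_append.1 he with he | he
    · exact hdg e he
    · exact h5 e he
  | @inner D D' T hD A B C E X Y W t m b x y z hT hP hE hE' hZ hm ih =>
    obtain ⟨c1, c2, c3⟩ := triAt_crossing hT
    have key : ∀ {u v : ℕ} {q : Pass × Pass}, (Z (colour u) ∨ Z (colour v)) →
        (q.1.crossing = u ∧ q.2.crossing = v ∨ q.1.crossing = v ∧ q.2.crossing = u) →
        Z (colour q.1.crossing) ∨ Z (colour q.2.crossing) := by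
      intro u v q hu hq
      rcases hq with ⟨e1, e2⟩ | ⟨e1, e2⟩ <;> rw [e1, e2]
      · exact hu
      · exact hu.symm
    obtain ⟨x1, y1, w1⟩ := mem_three hP (P := fun q : Pass × Pass =>
      Z (colour q.1.crossing) ∨ Z (colour q.2.crossing)) (key (by tauto) c1)
      (key (by tauto) c2) (key (by tauto) c3)
    have e : del Z D = del Z D' := by
      refine enc_inj ?_
      rw [enc_del, enc_del, hE, hE']
      simp only [de_append, de_two_swap x1, de_two_swap y1, de_two_swap w1]
    rw [e]
    exact ih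
  | @handle R T x y b hh hD hy hm ih =>
    obtain ⟨Ts, h1, h2, h5, h6⟩ := ih
    rw [del_cons, del_cons, dw_eq_nil hy] at h1
    rw [del_cons, dw_append, dw_eq_nil hy, List.append_nil]
    have hw : WF (passes ((dw Z x, b) :: ([], b) :: del Z R)) := by
      have := wf_del (Z := Z) (vwf hm)
      rwa [del_cons, del_cons, dw_eq_nil hy] at this
    have hw' : WF (passes (([], b) :: (dw Z x, b) :: del Z R)) := by
      simpa [passes] using hw
    have hw'' : WF (passes ((dw Z x, b) :: del Z R)) := by
      simpa [passes] using hw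
    obtain ⟨Ts₁, k1, k2⟩ := cstep_liftB hreid hren hw' hw
      (.perm _ _ (List.Perm.swap _ _ _)) h1
    obtain ⟨Ts₂, k3, k4⟩ := cstep_liftB hreid hren hw'' hw'
      (.birth b _ ⟨(dw Z x, b), by simp, rfl⟩) k1
    exact ⟨Ts₂, k3, (sig_flatMap (k4.trans k2)).trans h2, h5, h6⟩

theorem movie_of_vmovie {hd : Bool} {D : Code} {T : List (Sym2 (ℕ × Bool))}
    (h : VMovie hd Z D T) (hD : Classical D) (hZ : ∀ p ∈ passes D, ¬Z (colour p.crossing))
    (hn : (D.map Prod.snd).Nodup) : Movie true false D [] := by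
  obtain ⟨Ts, h1, h2, h5, h6⟩ := vmovie_inv RD.reid
    RN.ren TH.three h
  rw [del_eq hZ] at h1
  have h8 : Inv3 D Ts :=
    ⟨h1.wf, h1.ok, by rw [h2]; exact h5, by rw [h2]; exact h6, h1.inv⟩
  exact movie_of_inv3 RD.reid CT.cut
    OT.out_inv Pool.Agent.Y333.TP.mid_planar
    Pool.Agent.Y514.TP.out_planar Pool.Agent.Y210.TP.move junc _ _ D Ts rfl rfl
    hD hn h8

/-- the crossings with colours in `Z` are deleted in the whole movie -/
theorem wmovie_vdel {D D' : Code} (h : VSMovie Z D D') : WMovie (del Z D) (del Z D') := by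
  induction h with
  | refl => exact .refl
  | @tail D₁ D₂ _ h ih =>
    obtain ⟨h1, h2, h3⟩ := h
    cases h3 with
    | step hs =>
      rcases cstep_del (Z := Z) hs with h | h
      · exact ih.tail ⟨wf_iff.2 (wf_del (wf_iff.1 h1)), wf_iff.2 (wf_del (wf_iff.1 h2)),
          step_of_cstep h⟩
      · rw [← h]; exact ih
    | change c hc => rw [del_changed hc]; exact ih
    | three A B C E X Y W t m b x y z hT hP hE hE' hZ =>
      obtain ⟨c1, c2, c3⟩ := triAt_crossing hT
      have key : ∀ {u v : ℕ} {q : Pass × Pass}, (Z (colour u) ∨ Z (colour v)) →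
          (q.1.crossing = u ∧ q.2.crossing = v ∨ q.1.crossing = v ∧ q.2.crossing = u) →
          Z (colour q.1.crossing) ∨ Z (colour q.2.crossing) := by
        intro u v q hu hq
        rcases hq with ⟨e1, e2⟩ | ⟨e1, e2⟩ <;> rw [e1, e2]
        · exact hu
        · exact hu.symm
      obtain ⟨x1, y1, w1⟩ := mem_three hP (P := fun q : Pass × Pass =>
        Z (colour q.1.crossing) ∨ Z (colour q.2.crossing)) (key (by tauto) c1)
        (key (by tauto) c2) (key (by tauto) c3)
      have e : del Z D₁ = del Z D₂ := by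
        refine enc_inj ?_
        rw [enc_del, enc_del, hE, hE']
        simp only [de_append, de_two_swap x1, de_two_swap y1, de_two_swap w1]
      rw [← e]
      exact ih

theorem common_of_vconc {k k' : List Pass} (h : VConc k k') :
    ∃ j, Movie false false [(k, 0)] [(j, 0)] ∧ Movie false false [(k', 0)] [(j, 0)] := by
  obtain ⟨hk, hk', f, g, Z, hf, hg, hZ, hZ', hM⟩ := h
  have e1 : ∀ (f : ℕ → ℕ) (k : List Pass), renamed f [(k, 0)] = [(k.map (ren f), 0)] :=
    fun _ _ => rfl
  rw [e1, e1] at hM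
  have c1 := classical_ren hf hk
  have c2 := classical_ren hg hk'
  have d1 : del Z [(k.map (ren f), 0)] = [(k.map (ren f), 0)] := by
    refine del_eq fun p hp => ?_
    simp only [passes_cons, passes_nil, List.append_nil, List.mem_map] at hp
    obtain ⟨q, hq, rfl⟩ := hp
    exact hZ q hq
  have d2 : del Z [(k'.map (ren g), 0)] = [(k'.map (ren g), 0)] := by
    refine del_eq fun p hp => ?_
    simp only [passes_cons, passes_nil, List.append_nil, List.mem_map] at hp
    obtain ⟨q, hq, rfl⟩ := hp
    exact hZ' q hq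
  have hW := wmovie_vdel hM
  rw [d1, d2] at hW
  obtain ⟨j, j1, j2⟩ := common_of_wmovie c1 c2 hW
  have s1 : Step false false [(k, 0)] [(k.map (ren f), 0)] :=
    Step.rename f [(k, 0)] fun p _ q _ h => hf h
  have s2 : Step false false [(k', 0)] [(k'.map (ren g), 0)] :=
    Step.rename g [(k', 0)] fun p _ q _ h => hg h
  exact ⟨j, Movie.head hk c1 s1 j1, Movie.head hk' c2 s2 j2⟩

theorem movie_of_vconc {k k' : List Pass} (h : VConc k k') :
    Movie false true [(k, 0)] [(k', 0)] ∧ Movie false true [(k', 0)] [(k, 0)] := by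
  obtain ⟨j, j1, j2⟩ := common_of_vconc h
  have r1 : Movie false true [(j, 0)] [(k, 0)] := movie_rev j1 (by simp) (by simp)
  have r2 : Movie false true [(j, 0)] [(k', 0)] := movie_rev j2 (by simp) (by simp)
  exact ⟨(movie_births j1).trans r2, (movie_births j2).trans r1⟩

theorem movie_of_veqvGen {k k' : List Pass} (h : Relation.EqvGen VConc k k') :
    Movie false true [(k, 0)] [(k', 0)] ∧ Movie false true [(k', 0)] [(k, 0)] := by
  induction h with
  | rel _ _ h => exact movie_of_vconc h
  | refl _ => exact ⟨.refl, .refl⟩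
  | symm _ _ _ ih => exact ⟨ih.2, ih.1⟩
  | trans _ _ _ _ _ ih1 ih2 => exact ⟨ih1.1.trans ih2.1, ih2.2.trans ih1.2⟩

/-- a knot above one which is joined to the unknot by a chain of such concordances is ribbon -/
theorem ribbon_of_veqvGen {K k' : List Pass} (hk : Classical [(k', 0)])
    (h₁ : Movie true false [(K, 0)] [(k', 0)])
    (h₂ : Relation.EqvGen VConc k' []) : Movie true false [(K, 0)] [] := by
  have h3 := (movie_of_veqvGen h₂).1
  have h4 : Classical [(([] : List Pass), 0)] := classical_empty (by simp [passes])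
  have h5 : Movie false true [(k', 0)] [] :=
    h3.tail ⟨h4, classical_empty rfl, Step.death 0 [] (by simp)⟩
  exact h₁.trans (movie_mono (ribbon_of_movie h5 hk (by simp)))

end Pool.Agent.Y874.TP2.V127
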